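import Pool.Agent.helper5.IH.Spec

/-!
# Project ih, row PLA: both face colours have the same number of faces
-/

set_option autoImplicit false

namespace Pool.Agent.IH
open Finset CT SYM

theorem pla_sum {V : Type} [Fintype V] [DecidableEq V] {G : SimpleGraph V} (ρ : G.Dart → G.Dart)
    (f : G.Dart → Bool) (hf : FaceCol ρ f) :
    nfc ρ f true + nfc ρ f false = Nat.card (Face ρ) := by
  classical
  let g : Face ρ → Bool := Quot.lift f (by
    intro a b h
    rw [h, hf.1])
  have hg : ∀ d : G.Dart, g (Quot.mk _ d) = f d := fun d => rfl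
  have key : ∀ (c : Bool) (F : Face ρ), (∃ d : G.Dart, Quot.mk _ d = F ∧ f d = c) ↔ g F = c := by
    intro c F
    constructor
    · rintro ⟨d, rfl, h⟩
      rw [hg, h]
    · intro h
      induction F using Quot.ind with
      | _ d => exact ⟨d, rfl, by rw [← h, hg]⟩
  have : Finite G.Dart := inferInstance
  have : Finite (Face ρ) := inferInstanceAs (Finite (Quot _))
  unfold nfc
  have h1 : ∀ c : Bool, Nat.card {F : Face ρ // ∃ d : G.Dart, Quot.mk _ d = F ∧ f d = c} =
      Nat.card {F : Face ρ // g F = c} := fun c => Nat.card_congr (Equiv.subtypeEquivRight (key c))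
  rw [h1, h1]
  have h2 : Nat.card {F : Face ρ // g F = false} = Nat.card {F : Face ρ // ¬ g F = true} :=
    Nat.card_congr (Equiv.subtypeEquivRight (fun F => by simp))
  rw [h2, ← Nat.card_sum]
  exact Nat.card_congr (Equiv.sumCompl _)

theorem PLA (hCNX : SYM.CNX_stmt) (hTSB : TSB_stmt) (hFCC : FCC_stmt) (hFCO : FCO_stmt) :
    PLA_stmt := by
  intro V _ _ G ρ hG hV hv hρ hF
  have key : ∀ f : G.Dart → Bool, FaceCol ρ f → ∀ c, 2 * nfc ρ f c = Fintype.card V + 2 := by
    intro f hf
    have hs := pla_sum ρ f hf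
    rw [hF] at hs
    have hb : ∀ c, 2 * nfc ρ f c ≤ Fintype.card V + 2 := by
      intro c
      obtain ⟨τ, hτ, hn⟩ := hFCC V G ρ f hρ hf c
      rw [← hn]
      exact hTSB V G hG hV hv τ hτ
    have hb1 := hb true
    have hb2 := hb false
    intro c
    cases c
    · omega
    · omega
  refine ⟨?_, key⟩
  obtain ⟨v, hv'⟩ := hv
  have hc : G.Connected := hCNX V G v hG hV hv'
  obtain ⟨f, hf⟩ := hFCO V G ρ hG hc hρ hF
  have h1 := key f hf true
  exact ⟨nfc ρ f true - 1, by omega⟩

end Pool.Agent.IH
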